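import Pool.Agent.Lib.MP_6e0de5_an.Hull

/-!
Condition (ii) does not imply condition (i): a strongly maximal TAF subalgebra `T` of a UHF algebra
which satisfies (ii) but fails (i). All notions are defined in `Pool.Agent.Lib.MP_6e0de5_an.Defs`.

The example. Let `X = ∏ n, {0, …, 2 ^ (n + 2) - 1}` and let `A` be the UHF algebra on `ℓ²(X)`
generated by the matrix units that change the first `n` coordinates. Order `X` first by the position
of the first zero coordinate (`∞` if there is none), then lexicographically, and let `T` be the set
of `a ∈ A` whose matrix entries `⟨δ_x, a δ_y⟩` vanish unless `x ≤ y`.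
If `x` has a zero coordinate, increasing clopen sets separate `x` from any larger tail-equivalent
point. If `x` has none, `E_x` consists of all points with a zero and of the zero-free points
lexicographically below `x`, so its measure strictly increases. But for the largest point `x`, both
`E_x` and `J_x` contain all zero-free points, a set of positive measure.
-/

namespace Pool.Agent.Results.MP_6e0de5_an.CondTwoNotOne

open MeasureTheory Pool.Agent.Lib.MP_6e0de5_an

/-- There is a strongly maximal TAF subalgebra `T` of a unital UHF algebra that satisfies (ii) but
not (i), for the (existing and unique) measure `μ` on the spectrum of the diagonal given by the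
normalized trace; this for either convention (`flip`) on the direction of the graphs. -/
theorem result : ∀ flip : Bool,
    ∃ (A : Type) (_ : CStarAlgebra A) (F : ℕ → StarSubalgebra ℂ A) (T : Subalgebra ℂ A),
      IsUHF F ∧ IsTAF F T ∧ IsStronglyMaximal T ∧
      (∀ x : Spec (diag T), ∃ e : ℕ → diag T, Shrinks e x) ∧
      (∃ μ : Measure (Spec (diag T)), IsTraceMeasure μ) ∧
      ∀ μ : Measure (Spec (diag T)), IsTraceMeasure μ → CondII flip T μ ∧ ¬ CondI flip T μ := by
  intro flip
  refine ⟨AA, inferInstance, FF, TT flip, isUHF, isTAF flip, isStronglyMaximal flip,
    exists_shrinks flip, ⟨muX flip, isTraceMeasure flip⟩, fun μ hμ => ?_⟩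
  rw [measure_unique flip hμ]
  exact ⟨condII flip, not_condI flip⟩

end Pool.Agent.Results.MP_6e0de5_an.CondTwoNotOne
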